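import Pool.Agent.Helper53.PT.Cert.C2056
import Pool.Agent.Helper53.PT.Cert.C2072
import Pool.Agent.Helper53.PT.Cert.C2088
import Pool.Agent.Helper53.PT.Cert.C2108
import Pool.Agent.Helper53.PT.Cert.C2132
import Pool.Agent.Helper53.PT.Cert.C2156
import Pool.Agent.Helper63.TH.Chk

/-!
# MP_705522_gt, thresholds: checks of the cells 2056 to 2156
-/

namespace Pool.Agent.Helper63.TH

open Pool.Agent.Helper53.PT

theorem q2056 : cond (ok3 N.b2056 2048 2064) (ok4 N.b2056 2048 2064) false = true := by decide +kernel
theorem q2072 : cond (ok3 N.b2072 2064 2080) (ok4 N.b2072 2064 2080) false = true := by decide +kernel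
theorem q2088 : cond (ok3 N.b2088 2080 2096) (ok4 N.b2088 2080 2096) false = true := by decide +kernel
theorem q2108 : cond (ok3 N.b2108 2096 2120) (ok4 N.b2108 2096 2120) false = true := by decide +kernel
theorem q2132 : cond (ok3 N.b2132 2120 2144) (ok4 N.b2132 2120 2144) false = true := by decide +kernel
theorem q2156 : cond (ok3 N.b2156 2144 2168) (ok4 N.b2156 2144 2168) false = true := by decide +kernel

end Pool.Agent.Helper63.TH
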