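import Pool.Agent.Helper53.PT.Cert.C2180
import Pool.Agent.Helper53.PT.Cert.C2204
import Pool.Agent.Helper53.PT.Cert.C2228
import Pool.Agent.Helper53.PT.Cert.C2252
import Pool.Agent.Helper53.PT.Cert.C2280
import Pool.Agent.Helper53.PT.Cert.C2312
import Pool.Agent.Helper63.TH.Chk

/-!
# MP_705522_gt, thresholds: checks of the cells 2180 to 2312
-/

namespace Pool.Agent.Helper63.TH

open Pool.Agent.Helper53.PT

theorem q2180 : cond (ok3 N.b2180 2168 2192) (ok4 N.b2180 2168 2192) false = true := by decide +kernel
theorem q2204 : cond (ok3 N.b2204 2192 2216) (ok4 N.b2204 2192 2216) false = true := by decide +kernel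
theorem q2228 : cond (ok3 N.b2228 2216 2240) (ok4 N.b2228 2216 2240) false = true := by decide +kernel
theorem q2252 : cond (ok3 N.b2252 2240 2264) (ok4 N.b2252 2240 2264) false = true := by decide +kernel
theorem q2280 : cond (ok3 N.b2280 2264 2296) (ok4 N.b2280 2264 2296) false = true := by decide +kernel
theorem q2312 : cond (ok3 N.b2312 2296 2328) (ok4 N.b2312 2296 2328) false = true := by decide +kernel

end Pool.Agent.Helper63.TH
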