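import Pool.Agent.Helper53.PT.Cert.C2344
import Pool.Agent.Helper53.PT.Cert.C2376
import Pool.Agent.Helper53.PT.Cert.C2408
import Pool.Agent.Helper53.PT.Cert.C2440
import Pool.Agent.Helper53.PT.Cert.C2468
import Pool.Agent.Helper53.PT.Cert.C2488
import Pool.Agent.Helper63.TH.Chk

/-!
# MP_705522_gt, thresholds: checks of the cells 2344 to 2488
-/

namespace Pool.Agent.Helper63.TH

open Pool.Agent.Helper53.PT

theorem q2344 : cond (ok3 N.b2344 2328 2360) (ok4 N.b2344 2328 2360) false = true := by decide +kernel
theorem q2376 : cond (ok3 N.b2376 2360 2392) (ok4 N.b2376 2360 2392) false = true := by decide +kernel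
theorem q2408 : cond (ok3 N.b2408 2392 2424) (ok4 N.b2408 2392 2424) false = true := by decide +kernel
theorem q2440 : cond (ok3 N.b2440 2424 2456) (ok4 N.b2440 2424 2456) false = true := by decide +kernel
theorem q2468 : cond (ok3 N.b2468 2456 2480) (ok4 N.b2468 2456 2480) false = true := by decide +kernel
theorem q2488 : cond (ok3 N.b2488 2480 2496) (ok4 N.b2488 2480 2496) false = true := by decide +kernel

end Pool.Agent.Helper63.TH
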