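import Pool.Agent.Helper53.PT.Cert.C2504
import Pool.Agent.Helper53.PT.Cert.C2508
import Pool.Agent.Helper53.PT.Cert.C2522
import Pool.Agent.Helper53.PT.Cert.C2532
import Pool.Agent.Helper53.PT.Cert.C2540
import Pool.Agent.Helper53.PT.Cert.C2547
import Pool.Agent.Helper63.TH.Chk

/-!
# MP_705522_gt, thresholds: checks of the cells 2504 to 2547
-/

namespace Pool.Agent.Helper63.TH

open Pool.Agent.Helper53.PT

theorem q2504 : cond (ok3 N.b2504 2496 2512) (ok4 N.b2504 2496 2512) false = true := by decide +kernel
theorem q2508 : cond (ok3 N.b2508 2500 2516) (ok4 N.b2508 2500 2516) false = true := by decide +kernel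
theorem q2522 : cond (ok3 N.b2522 2516 2528) (ok4 N.b2522 2516 2528) false = true := by decide +kernel
theorem q2532 : cond (ok3 N.b2532 2528 2536) (ok4 N.b2532 2528 2536) false = true := by decide +kernel
theorem q2540 : cond (ok3 N.b2540 2536 2544) (ok4 N.b2540 2536 2544) false = true := by decide +kernel
theorem q2547 : cond (ok3 N.b2547 2544 2550) (ok4 N.b2547 2544 2550) false = true := by decide +kernel

end Pool.Agent.Helper63.TH
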