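import Pool.Agent.Helper53.PT.Cert.C2553
import Pool.Agent.Helper53.PT.Cert.C2560
import Pool.Agent.Helper53.PT.Cert.C2570
import Pool.Agent.Helper53.PT.Cert.C2584
import Pool.Agent.Helper53.PT.Cert.C2604
import Pool.Agent.Helper53.PT.Cert.C2632
import Pool.Agent.Helper63.TH.Chk

/-!
# MP_705522_gt, thresholds: checks of the cells 2553 to 2632
-/

namespace Pool.Agent.Helper63.TH

open Pool.Agent.Helper53.PT

theorem q2553 : cond (ok3 N.b2553 2550 2556) (ok4 N.b2553 2550 2556) false = true := by decide +kernel
theorem q2560 : cond (ok3 N.b2560 2556 2564) (ok4 N.b2560 2556 2564) false = true := by decide +kernel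
theorem q2570 : cond (ok3 N.b2570 2564 2576) (ok4 N.b2570 2564 2576) false = true := by decide +kernel
theorem q2584 : cond (ok3 N.b2584 2576 2592) (ok4 N.b2584 2576 2592) false = true := by decide +kernel
theorem q2604 : cond (ok3 N.b2604 2592 2616) (ok4 N.b2604 2592 2616) false = true := by decide +kernel
theorem q2632 : cond (ok3 N.b2632 2616 2648) (ok4 N.b2632 2616 2648) false = true := by decide +kernel

end Pool.Agent.Helper63.TH
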