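import Pool.Agent.Helper53.PT.Cert.C2664
import Pool.Agent.Helper53.PT.Cert.C2696
import Pool.Agent.Helper53.PT.Cert.C2724
import Pool.Agent.Helper53.PT.Cert.C2748
import Pool.Agent.Helper53.PT.Cert.C2762
import Pool.Agent.Helper53.PT.Cert.C2786
import Pool.Agent.Helper63.TH.Chk

/-!
# MP_705522_gt, thresholds: checks of the cells 2664 to 2786
-/

namespace Pool.Agent.Helper63.TH

open Pool.Agent.Helper53.PT

theorem q2664 : cond (ok3 N.b2664 2648 2680) (ok4 N.b2664 2648 2680) false = true := by decide +kernel
theorem q2696 : cond (ok3 N.b2696 2680 2712) (ok4 N.b2696 2680 2712) false = true := by decide +kernel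
theorem q2724 : cond (ok3 N.b2724 2712 2736) (ok4 N.b2724 2712 2736) false = true := by decide +kernel
theorem q2748 : cond (ok3 N.b2748 2736 2760) (ok4 N.b2748 2736 2760) false = true := by decide +kernel
theorem q2762 : cond (ok3 N.b2762 2750 2774) (ok4 N.b2762 2750 2774) false = true := by decide +kernel
theorem q2786 : cond (ok3 N.b2786 2774 2798) (ok4 N.b2786 2774 2798) false = true := by decide +kernel

end Pool.Agent.Helper63.TH
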