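import Pool.Agent.Helper53.PT.Cert.C2810
import Pool.Agent.Helper53.PT.Cert.C2834
import Pool.Agent.Helper53.PT.Cert.C2858
import Pool.Agent.Helper53.PT.Cert.C2882
import Pool.Agent.Helper53.PT.Cert.C2902
import Pool.Agent.Helper53.PT.Cert.C2918
import Pool.Agent.Helper63.TH.Chk

/-!
# MP_705522_gt, thresholds: checks of the cells 2810 to 2918
-/

namespace Pool.Agent.Helper63.TH

open Pool.Agent.Helper53.PT

theorem q2810 : cond (ok3 N.b2810 2798 2822) (okT N.b2810 2798 2822) false = true := by decide +kernel
theorem q2834 : cond (ok3 N.b2834 2822 2846) (okT N.b2834 2822 2846) false = true := by decide +kernel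
theorem q2858 : cond (ok3 N.b2858 2846 2870) (okT N.b2858 2846 2870) false = true := by decide +kernel
theorem q2882 : cond (ok3 N.b2882 2870 2894) (okT N.b2882 2870 2894) false = true := by decide +kernel
theorem q2902 : cond (ok3 N.b2902 2894 2910) (okT N.b2902 2894 2910) false = true := by decide +kernel
theorem q2918 : cond (ok3 N.b2918 2910 2926) (okT N.b2918 2910 2926) false = true := by decide +kernel

end Pool.Agent.Helper63.TH
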