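import Pool.Agent.Helper53.PT.Cert.C2934
import Pool.Agent.Helper53.PT.Cert.C2950
import Pool.Agent.Helper53.PT.Cert.C2964
import Pool.Agent.Helper53.PT.Cert.C2976
import Pool.Agent.Helper53.PT.Cert.C2988
import Pool.Agent.Helper53.PT.Cert.C3000
import Pool.Agent.Helper63.TH.Chk

/-!
# MP_705522_gt, thresholds: checks of the cells 2934 to 3000
-/

namespace Pool.Agent.Helper63.TH

open Pool.Agent.Helper53.PT

theorem q2934 : cond (ok3 N.b2934 2926 2942) (okT N.b2934 2926 2942) false = true := by decide +kernel
theorem q2950 : cond (ok3 N.b2950 2942 2958) (okT N.b2950 2942 2958) false = true := by decide +kernel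
theorem q2964 : cond (ok3 N.b2964 2958 2970) (okT N.b2964 2958 2970) false = true := by decide +kernel
theorem q2976 : cond (ok3 N.b2976 2970 2982) (okT N.b2976 2970 2982) false = true := by decide +kernel
theorem q2988 : cond (ok3 N.b2988 2982 2994) (okT N.b2988 2982 2994) false = true := by decide +kernel
theorem q3000 : cond (ok3 N.b3000 2994 3006) (okT N.b3000 2994 3006) false = true := by decide +kernel

end Pool.Agent.Helper63.TH
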