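import Pool.Agent.Helper53.PT.Cert.C3012
import Pool.Agent.Helper53.PT.Cert.C3022
import Pool.Agent.Helper53.PT.Cert.C3030
import Pool.Agent.Helper53.PT.Cert.C3038
import Pool.Agent.Helper53.PT.Cert.C3046
import Pool.Agent.Helper53.PT.Cert.C3054
import Pool.Agent.Helper63.TH.Chk

/-!
# MP_705522_gt, thresholds: checks of the cells 3012 to 3054
-/

namespace Pool.Agent.Helper63.TH

open Pool.Agent.Helper53.PT

theorem q3012 : cond (ok3 N.b3012 3006 3018) (okT N.b3012 3006 3018) false = true := by decide +kernel
theorem q3022 : cond (ok3 N.b3022 3018 3026) (okT N.b3022 3018 3026) false = true := by decide +kernel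
theorem q3030 : cond (ok3 N.b3030 3026 3034) (okT N.b3030 3026 3034) false = true := by decide +kernel
theorem q3038 : cond (ok3 N.b3038 3034 3042) (okT N.b3038 3034 3042) false = true := by decide +kernel
theorem q3046 : cond (ok3 N.b3046 3042 3050) (okT N.b3046 3042 3050) false = true := by decide +kernel
theorem q3054 : cond (ok3 N.b3054 3050 3058) (okT N.b3054 3050 3058) false = true := by decide +kernel

end Pool.Agent.Helper63.TH
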