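import Pool.Agent.Helper53.PT.Cert.C3062
import Pool.Agent.Helper53.PT.Cert.C3070
import Pool.Agent.Helper53.PT.Cert.C3080
import Pool.Agent.Helper53.PT.Cert.C3092
import Pool.Agent.Helper53.PT.Cert.C3106
import Pool.Agent.Helper53.PT.Cert.C3108
import Pool.Agent.Helper63.TH.Chk

/-!
# MP_705522_gt, thresholds: checks of the cells 3062 to 3108
-/

namespace Pool.Agent.Helper63.TH

open Pool.Agent.Helper53.PT

theorem q3062 : cond (ok3 N.b3062 3058 3066) (okT N.b3062 3058 3066) false = true := by decide +kernel
theorem q3070 : cond (ok3 N.b3070 3066 3074) (okT N.b3070 3066 3074) false = true := by decide +kernel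
theorem q3080 : cond (ok3 N.b3080 3074 3086) (okT N.b3080 3074 3086) false = true := by decide +kernel
theorem q3092 : cond (ok3 N.b3092 3086 3098) (okT N.b3092 3086 3098) false = true := by decide +kernel
theorem q3106 : cond (ok3 N.b3106 3098 3114) (okT N.b3106 3098 3114) false = true := by decide +kernel
theorem q3108 : cond (ok3 N.b3108 3100 3116) (okT N.b3108 3100 3116) false = true := by decide +kernel

end Pool.Agent.Helper63.TH
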