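import Pool.Agent.Helper53.PT.Cert.C3124
import Pool.Agent.Helper53.PT.Cert.C3140
import Pool.Agent.Helper53.PT.Cert.C3156
import Pool.Agent.Helper53.PT.Cert.C3172
import Pool.Agent.Helper63.TH.Chk

/-!
# MP_705522_gt, thresholds: checks of the cells 3124 to 3172
-/

namespace Pool.Agent.Helper63.TH

open Pool.Agent.Helper53.PT

theorem q3124 : cond (ok3 N.b3124 3116 3132) (okT N.b3124 3116 3132) false = true := by decide +kernel
theorem q3140 : cond (ok3 N.b3140 3132 3148) (okT N.b3140 3132 3148) false = true := by decide +kernel
theorem q3156 : cond (ok3 N.b3156 3148 3164) (okT N.b3156 3148 3164) false = true := by decide +kernel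
theorem q3172 : cond (ok3 N.b3172 3164 3180) (okT N.b3172 3164 3180) false = true := by decide +kernel

end Pool.Agent.Helper63.TH
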