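import Pool.Agent.Helper53.PT.Cert.C3192
import Pool.Agent.Helper53.PT.Cert.C3216
import Pool.Agent.Helper53.PT.Cert.C3244
import Pool.Agent.Helper53.PT.Cert.C3276
import Pool.Agent.Helper53.PT.Cert.C3308
import Pool.Agent.Helper53.PT.Cert.C3340
import Pool.Agent.Helper53.PT.Cert.C3380
import Pool.Agent.Helper63.TH.Chk

/-!
# MP_705522_gt, thresholds: checks of the cells 3192 to 3380
-/

namespace Pool.Agent.Helper63.TH

open Pool.Agent.Helper53.PT

theorem q3192 : okm N.b3192 3180 3204 = true := by decide +kernel
theorem q3216 : okm N.b3216 3204 3228 = true := by decide +kernel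
theorem q3244 : okm N.b3244 3228 3260 = true := by decide +kernel
theorem q3276 : okm N.b3276 3260 3292 = true := by decide +kernel
theorem q3308 : okm N.b3308 3292 3324 = true := by decide +kernel
theorem q3340 : okm N.b3340 3324 3356 = true := by decide +kernel
theorem q3380 : okm N.b3380 3356 3404 = true := by decide +kernel

end Pool.Agent.Helper63.TH
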