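import Pool.Agent.Helper53.PT.Cert.C3428
import Pool.Agent.Helper53.PT.Cert.C3476
import Pool.Agent.Helper53.PT.Cert.C3524
import Pool.Agent.Helper53.PT.Cert.C3572
import Pool.Agent.Helper53.PT.Cert.C3620
import Pool.Agent.Helper53.PT.Cert.C3668
import Pool.Agent.Helper53.PT.Cert.C3716
import Pool.Agent.Helper63.TH.Chk

/-!
# MP_705522_gt, thresholds: checks of the cells 3428 to 3716
-/

namespace Pool.Agent.Helper63.TH

open Pool.Agent.Helper53.PT

theorem q3428 : okm N.b3428 3404 3452 = true := by decide +kernel
theorem q3476 : okm N.b3476 3452 3500 = true := by decide +kernel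
theorem q3524 : okm N.b3524 3500 3548 = true := by decide +kernel
theorem q3572 : okm N.b3572 3548 3596 = true := by decide +kernel
theorem q3620 : okm N.b3620 3596 3644 = true := by decide +kernel
theorem q3668 : okm N.b3668 3644 3692 = true := by decide +kernel
theorem q3716 : okm N.b3716 3692 3740 = true := by decide +kernel

end Pool.Agent.Helper63.TH
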