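import Pool.Agent.Helper53.PT.Cert.C3764
import Pool.Agent.Helper53.PT.Cert.C3812
import Pool.Agent.Helper53.PT.Cert.C3852
import Pool.Agent.Helper53.PT.Cert.C3884
import Pool.Agent.Helper53.PT.Cert.C3916
import Pool.Agent.Helper63.TH.Chk

/-!
# MP_705522_gt, thresholds: checks of the cells 3764 to 3916
-/

namespace Pool.Agent.Helper63.TH

open Pool.Agent.Helper53.PT

theorem q3764 : okm N.b3764 3740 3788 = true := by decide +kernel
theorem q3812 : okm N.b3812 3788 3836 = true := by decide +kernel
theorem q3852 : okm N.b3852 3836 3868 = true := by decide +kernel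
theorem q3884 : okm N.b3884 3868 3900 = true := by decide +kernel
theorem q3916 : okm N.b3916 3900 3932 = true := by decide +kernel

end Pool.Agent.Helper63.TH
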