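import Pool.Agent.Helper53.PT.Cert.C3944
import Pool.Agent.Helper53.PT.Cert.C3964
import Pool.Agent.Helper53.PT.Cert.C3980
import Pool.Agent.Helper53.PT.Cert.C3996
import Pool.Agent.Helper53.PT.Cert.C4010
import Pool.Agent.Helper63.TH.Chk

/-!
# MP_705522_gt, thresholds: checks of the cells 3944 to 4010
-/

namespace Pool.Agent.Helper63.TH

open Pool.Agent.Helper53.PT

theorem q3944 : ok5 N.b3944 3932 3956 = true := by decide +kernel
theorem q3964 : ok5 N.b3964 3956 3972 = true := by decide +kernel
theorem q3980 : ok5 N.b3980 3972 3988 = true := by decide +kernel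
theorem q3996 : ok5 N.b3996 3988 4004 = true := by decide +kernel
theorem q4010 : ok5 N.b4010 4004 4016 = true := by decide +kernel

end Pool.Agent.Helper63.TH
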