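import Pool.Agent.Helper63.TH.Chk
import Pool.Agent.Helper63.P705.BS.Fin

/-!
# MP_705522_gt, thresholds: cells 4022, 4034, 4050 (`θ ≤ 4060/8192`)
-/

namespace Pool.Agent.Helper63.TH

open Pool.Agent.Helper53.PT
open Pool.Agent.Helper63.P705 (baseOK tabP tabS tabT)

noncomputable def b4022 : N.Base := { h := 6, T0 := tabP 4022, T1 := tabS 4022, T2 := tabT 4022, dm2 := 9186753547, dm3 := 2203816739, m2R := 3191630071626, m3R := 15271192012063, m4R := 101619869857431, c0 := 11548894017, c1 := 453779698, c2 := 21160758, gn := 16, ni := false }
theorem bo4022 : baseOK 4022 b4022 = true := by decide +kernel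
theorem q4022 : ok5 b4022 4016 4028 = true := by decide +kernel

noncomputable def b4034 : N.Base := { h := 6, T0 := tabP 4034, T1 := tabS 4034, T2 := tabT 4034, dm2 := 9265342839, dm3 := 2216136951, m2R := 3210121362330, m3R := 15478796042129, m4R := 103921819678051, c0 := 10593337876, c1 := 434512266, c2 := 20509457, gn := 16, ni := false }
theorem bo4034 : baseOK 4034 b4034 = true := by decide +kernel
theorem q4034 : ok5 b4034 4028 4040 = true := by decide +kernel

noncomputable def b4050 : N.Base := { h := 10, T0 := tabP 4050, T1 := tabS 4050, T2 := tabT 4050, dm2 := 15641266004, dm3 := 3724622356, m2R := 3241292959749, m3R := 15832239494932, m4R := 107886718846152, c0 := 9725428429, c1 := 419264877, c2 := 20050578, gn := 16, ni := false }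
theorem bo4050 : baseOK 4050 b4050 = true := by decide +kernel
theorem q4050 : ok5 b4050 4040 4060 = true := by decide +kernel

end Pool.Agent.Helper63.TH
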