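import Pool.Agent.Helper63.TH.Chk
import Pool.Agent.Helper63.P705.BS.Fin

/-!
# MP_705522_gt, thresholds: values at points
-/

namespace Pool.Agent.Helper63.TH

open Pool.Agent.Helper53.PT
open Pool.Agent.Helper63.P705 (baseOK tabP tabS tabT)

noncomputable def p3180 : N.Base := { h := 0, T0 := tabP 3180, T1 := tabS 3180, T2 := tabT 3180, dm2 := 4, dm3 := 4, m2R := 2205144506256, m3R := 6367430204682, m4R := 23553236459654, c0 := 45054603143, c1 := 1908979914, c2 := 104573264, gn := 25, ni := false }
theorem bp3180 : baseOK 3180 p3180 = true := by decide +kernel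
theorem e3180 : cond (lt3 p3180 3180) (lt3 p3180 3400) false = true := by decide +kernel

noncomputable def p3400 : N.Base := { h := 0, T0 := tabP 3400, T1 := tabS 3400, T2 := tabT 3400, dm2 := 4, dm3 := 4, m2R := 2409960806704, m3R := 7872776070700, m4R := 33651792827852, c0 := 43193384233, c1 := 1493557884, c2 := 69990092, gn := 22, ni := false }
theorem bp3400 : baseOK 3400 p3400 = true := by decide +kernel
theorem e3400 : cond (lt3 p3400 3400) (lt3 p3400 3629) false = true := by decide +kernel

noncomputable def p3629 : N.Base := { h := 0, T0 := tabP 3629, T1 := tabS 3629, T2 := tabT 3629, dm2 := 4, dm3 := 4, m2R := 2657206040711, m3R := 9925938450065, m4R := 49602639257825, c0 := 34698633003, c1 := 1075092345, c2 := 46443037, gn := 20, ni := false }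
theorem bp3629 : baseOK 3629 p3629 = true := by decide +kernel
theorem e3629 : cond (lt3 p3629 3629) (lt3 p3629 3801) false = true := by decide +kernel

noncomputable def p3801 : N.Base := { h := 0, T0 := tabP 3801, T1 := tabS 3801, T2 := tabT 3801, dm2 := 4, dm3 := 4, m2R := 2869671771443, m3R := 11900635282023, m4R := 67135095209866, c0 := 25896678748, c1 := 790179903, c2 := 33658256, gn := 18, ni := false }
theorem bp3801 : baseOK 3801 p3801 = true := by decide +kernel
theorem e3801 : cond (lt3 p3801 3801) (lt3 p3801 3908) false = true := by decide +kernel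

noncomputable def p3908 : N.Base := { h := 0, T0 := tabP 3908, T1 := tabS 3908, T2 := tabT 3908, dm2 := 4, dm3 := 4, m2R := 3015084062876, m3R := 13366024949449, m4R := 81445979004853, c0 := 19187100383, c1 := 618411422, c2 := 26951916, gn := 17, ni := false }
theorem bp3908 : baseOK 3908 p3908 = true := by decide +kernel
theorem e3908 : cond (lt3 p3908 3908) (lt3 p3908 3932) false = true := by decide +kernel

theorem epd : Nat.ble 315871000000 (pD 4060) = true := by decide +kernel

end Pool.Agent.Helper63.TH
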