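import Pool.Agent.Helper63.TH.Chk
import Pool.Agent.Helper63.P705.BS.Fin

/-!
# MP_705522_gt, thresholds: values at points
-/

namespace Pool.Agent.Helper63.TH

open Pool.Agent.Helper53.PT
open Pool.Agent.Helper63.P705 (baseOK tabP tabS tabT)

noncomputable def p2798 : N.Base := { h := 0, T0 := tabP 2798, T1 := tabS 2798, T2 := tabT 2798, dm2 := 4, dm3 := 4, m2R := 1911820219787, m3R := 4512201294686, m4R := 13153276861094, c0 := 44554814436, c1 := 3382296426, c2 := 274330689, gn := 30, ni := false }
theorem bp2798 : baseOK 2798 p2798 = true := by decide +kernel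
theorem e2798 : cond (lt4 p2798 202 2798) (lt4 p2798 202 3000) false = true := by decide +kernel

noncomputable def p3000 : N.Base := { h := 0, T0 := tabP 3000, T1 := tabS 3000, T2 := tabT 3000, dm2 := 4, dm3 := 4, m2R := 2057983855150, m3R := 5393002683357, m4R := 17794493525674, c0 := 44608332965, c1 := 2389901651, c2 := 155308005, gn := 27, ni := false }
theorem bp3000 : baseOK 3000 p3000 = true := by decide +kernel
theorem e3000 : cond (lt4 p3000 180 3000) (lt4 p3000 180 3180) false = true := by decide +kernel

end Pool.Agent.Helper63.TH
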